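import Pool.Agent.P.MP_6d14ae_al.Nec

/-! Indecomposable cycle sets with a cycle of prime length coprime to the size. -/

set_option autoImplicit false

namespace Pool.Agent.P.MP_6d14ae_al.U

open Function

/-- some indecomposable cycle set of size `n` has a cycle of length `r` -/
def Cyc (n r : ℕ) : Prop :=
  ∃ (X : Type) (_ : Fintype X) (σ : X → Equiv.Perm X), Fintype.card X = n ∧
    (∀ x y z, σ (σ x y) (σ x z) = σ (σ y x) (σ y z)) ∧
    (¬ ∃ Y Z : Set X, Y.Nonempty ∧ Z.Nonempty ∧ Disjoint Y Z ∧ Y ∪ Z = Set.univ ∧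
      (∀ y ∈ Y, ∀ z ∈ Z, σ y z ∈ Z) ∧ (∀ z ∈ Z, ∀ y ∈ Y, σ z y ∈ Y)) ∧
    ∃ x y, minimalPeriod (σ x) y = r

theorem cyc_of {X : Type} [Fintype X] (f : X → X → X) (inj : ∀ s, Injective (f s))
    (ax : ∀ x y z, f (f x y) (f x z) = f (f y x) (f y z))
    (H : ∀ P : X → Prop, (∀ s s' u u', f s u = f s' u' → (P u ↔ P u')) → ∀ u v, P u → P v)
    {r : ℕ} (hr : r.Prime) (x y : X) (h1 : (f x)^[r] y = y) (h2 : f x y ≠ y) :
    Cyc (Fintype.card X) r := by
  have := Fact.mk hr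
  refine ⟨X, inferInstance,
    fun s => Equiv.ofBijective (f s) (Finite.injective_iff_bijective.1 (inj s)), rfl, ax,
    indec_of_const fun P h => H P fun s s' u u' e => ?_, x, y, minimalPeriod_eq_prime h1 h2⟩
  have a := h s u
  have b := h s' u'
  simp only [Equiv.ofBijective_apply] at a b
  rw [a, b, e]

theorem step {m : ℕ} [NeZero m] (Q : ZMod m → Prop) {c : ZMod m} (hc : IsUnit c)
    (h : ∀ j, Q j ↔ Q (j + c)) (j j' : ZMod m) : Q j ↔ Q j' := by
  obtain ⟨d, hd⟩ := hc.exists_left_inv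
  have h1 : ∀ k : ℕ, Q j ↔ Q (j + k * c) := fun k => by
    induction k with
    | zero => simp
    | succ k ih => rw [ih, h]; push_cast; rw [add_mul, one_mul, add_assoc]
  rw [h1 ((j' - j) * d).val, ZMod.natCast_zmod_val, mul_assoc, hd, mul_one, add_sub_cancel]

theorem conB {F : Type} [Field F] [Fintype F] [DecidableEq F] {r : ℕ} (hr : r.Prime) (ho : Odd r)
    (α : F) (h1 : α ^ r = 1) (h2 : α ≠ 1) (m : ℕ) [NeZero m] :
    Cyc (Fintype.card F ^ 2 * m) r := by
  have h0 : α ≠ 0 := by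
    rintro rfl
    simp [hr.ne_zero] at h1
  obtain ⟨Φ, k1, k2, k3⟩ : ∃ Φ : F → F, (∀ A, Φ (-A) = Φ A) ∧ (∀ A, Φ (α * A) = α * Φ A) ∧
      ∀ A, Φ A = A ∨ Φ A = -A := by
    let ι := Fintype.equivFin F
    refine ⟨fun A => if ι (A ^ r) < ι (-A ^ r) then A else -A, fun A => ?_, fun A => ?_,
      fun A => ?_⟩
    · simp only [ho.neg_pow, neg_neg]
      rcases lt_trichotomy (ι (A ^ r)) (ι (-A ^ r)) with h | h | h
      · rw [if_neg h.not_gt, if_pos h]
      · rw [if_neg h.not_gt, if_neg h.not_lt]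
        have h3 : 2 * A ^ r = 0 := by linear_combination ι.injective h
        rcases mul_eq_zero.1 h3 with h4 | h4
        · linear_combination A * h4
        · simp [pow_eq_zero_iff hr.ne_zero |>.1 h4]
      · rw [if_pos h, if_neg h.not_gt]
    · simp only [mul_pow, h1, one_mul]
      split_ifs <;> ring
    · dsimp only
      split_ifs <;> simp
  have k0 : Φ 0 = 0 := by simpa using k3 0
  have h3 : 1 - α ≠ 0 := sub_ne_zero.2 h2.symm
  have hc : Fintype.card (F × F × ZMod m) = Fintype.card F ^ 2 * m := by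
    simp only [Fintype.card_prod, ZMod.card]; ring
  rw [← hc]
  refine cyc_of (fun s t => (α * (t.1 + s.2.1), α * (t.2.1 + Φ (t.1 - s.1)),
    t.2.2 + if s.1 = t.1 then 1 else 0)) ?_ ?_ ?_ hr (1, 0, 0)
    (0, α * Φ (0 - 1) / (1 - α) + 1, 0) ?_ ?_
  · rintro ⟨a, x, i⟩ ⟨b, y, j⟩ ⟨c, z, k⟩ e
    simp only [Prod.mk.injEq, mul_right_inj' h0, add_left_inj] at e
    obtain ⟨rfl, e1, e2⟩ := e
    simpa using And.intro e1 e2
  · rintro ⟨a, x, i⟩ ⟨b, y, j⟩ ⟨c, z, k⟩
    simp only [Prod.mk.injEq, mul_right_inj' h0, add_left_inj]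
    rw [← mul_sub, ← mul_sub, k2, k2, ← neg_sub a b, k1, add_sub_add_right_eq_sub,
      add_sub_add_right_eq_sub]
    refine ⟨?_, ?_, ?_⟩ <;> ring
  · intro P h
    have R : ∀ (e e' b b' y y' : F) (j j' : ZMod m), y + Φ e = y' + Φ e' →
        (j + if e = 0 then 1 else 0) = j' + (if e' = 0 then 1 else 0) →
        (P (b, y, j) ↔ P (b', y', j')) := fun e e' b b' y y' j j' e1 e2 =>
      h (b - e, b', 0) (b' - e', b, 0) _ _ (by
        simp only [sub_sub_cancel, sub_eq_self, e1, e2, add_comm b b'])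
    have R1 : ∀ b y y' j, P (b, y, j) ↔ P (b, y', j) := fun b y y' j => by
      rcases eq_or_ne y y' with rfl | hy
      · rfl
      have h4 : (y' - y) / (1 - α) ≠ 0 := div_ne_zero (sub_ne_zero.2 hy.symm) h3
      rcases k3 ((y' - y) / (1 - α)) with h5 | h5
      · exact R ((y' - y) / (1 - α)) (α * ((y' - y) / (1 - α))) _ _ _ _ _ _
          (by rw [k2, h5]; field_simp; ring) (by simp [h4, h0])
      · exact R (α * ((y' - y) / (1 - α))) ((y' - y) / (1 - α)) _ _ _ _ _ _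
          (by rw [k2, h5]; field_simp; ring) (by simp [h4, h0])
    rintro ⟨b, y, j⟩ ⟨b', y', j'⟩ hp
    rw [R 0 0 b b' y y j j rfl rfl, R1 b' y y'] at hp
    refine (step (fun j => P (b', y', j)) isUnit_one (fun j => ?_) j j').1 hp
    rw [R 0 1 b' b' y' (y' - Φ 1) j (j + 1) (by simp [k0]) (by simp), R1]
  · have : ∀ k : ℕ, (fun t : F × F × ZMod m => (α * (t.1 + 0), α * (t.2.1 + Φ (t.1 - 1)),
        t.2.2 + if (1 : F) = t.1 then 1 else 0))^[k] (0, α * Φ (0 - 1) / (1 - α) + 1, 0) =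
        (0, α * Φ (0 - 1) / (1 - α) + α ^ k, 0) := fun k => by
      induction k with
      | zero => simp
      | succ k ih =>
        rw [iterate_succ_apply', ih]
        simp only [Prod.mk.injEq]
        exact ⟨by simp, by field_simp; ring, by simp⟩
    exact (this r).trans (by rw [h1])
  · intro e
    have h4 := congrArg (fun t => t.2.1) e
    dsimp only at h4
    field_simp at h4
    exact mul_ne_zero h3 h3 (by linear_combination -h4)

/-- an odd function with value one at one -/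
def sn {A : Type} (B : Type) [Ring A] [Ring B] [DecidableEq A] (e : A) : B :=
  (if e = 1 then 1 else 0) - if e = -1 then 1 else 0

theorem sn_neg {A B : Type} [Ring A] [Ring B] [DecidableEq A] (e : A) : sn B (-e) = -sn B e := by
  simp only [sn, neg_eq_iff_eq_neg, neg_sub, neg_neg]

theorem sn_val {m : ℕ} (B : Type) [Ring B] (h : 3 ≤ m) :
    sn B (0 : ZMod m) = 0 ∧ sn B (1 : ZMod m) = 1 ∧ (1 : ZMod m) ≠ 0 := by
  have nz : ∀ a : ℕ, 0 < a → a < 3 → (a : ZMod m) ≠ 0 := fun a h1 h2 e => by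
    have := Nat.le_of_dvd h1 ((ZMod.natCast_eq_zero_iff a m).1 e)
    omega
  have h1 : (1 : ZMod m) ≠ 0 := by simpa using nz 1 one_pos (by norm_num)
  have h2 : (1 : ZMod m) ≠ -1 := fun e =>
    nz 2 two_pos (by norm_num) (by push_cast; linear_combination e)
  exact ⟨by simp [sn, h1.symm, h1], by simp [sn, h2], h1⟩

theorem conA {q m n : ℕ} (hq : 3 ≤ q) (hm : 3 ≤ m) (hn : 3 ≤ n) (ho : Odd n) (hq' : Odd q) :
    Cyc (q ^ 2 * (m * n)) 2 := by
  have : NeZero q := ⟨by omega⟩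
  have : NeZero m := ⟨by omega⟩
  have : NeZero n := ⟨by omega⟩
  obtain ⟨q0, q1, q2⟩ := sn_val (ZMod n) hq
  obtain ⟨m0, m1, -⟩ := sn_val (ZMod q) hm
  obtain ⟨n0, n1, -⟩ := sn_val (ZMod q) hn
  have hc : Fintype.card (ZMod q × ZMod m × ZMod n × ZMod q) = q ^ 2 * (m * n) := by
    simp only [Fintype.card_prod, ZMod.card]; ring
  rw [← hc]
  refine cyc_of (fun s t => (-(t.1 + s.2.2.2), t.2.1 + if s.1 = t.1 then 1 else 0,
    -(t.2.2.1 + sn (ZMod n) (t.1 - s.1)), -(t.2.2.2 + if s.1 = t.1 then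
      sn (ZMod q) (t.2.1 - s.2.1) * sn (ZMod q) (t.2.2.1 - s.2.2.1) else 0))) ?_ ?_ ?_
    Nat.prime_two (1, 0, 0, 0) (0, 0, 0, 1) ?_ ?_
  · rintro ⟨a, u, v, x⟩ ⟨b, u', v', y⟩ ⟨c, u'', v'', z⟩ e
    simp only [Prod.mk.injEq, neg_inj, add_left_inj] at e
    obtain ⟨rfl, e1, e2, e3⟩ := e
    simp only [add_left_inj] at e1 e2
    subst e1 e2
    simpa using e3
  · rintro ⟨a, u, v, x⟩ ⟨b, u', v', y⟩ ⟨c, u'', v'', z⟩
    simp only [Prod.mk.injEq, neg_inj, add_left_inj]
    have e1 : ∀ b c x : ZMod q, -(c + x) - -(b + x) = -(c - b) := fun _ _ _ => by ring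
    rw [e1, e1, sn_neg, sn_neg]
    refine ⟨?_, by ring, by ring, ?_⟩
    · rw [← neg_sub u u', ← neg_sub v v', sn_neg, sn_neg]
      simp only [eq_comm (a := b)]
      split_ifs <;> ring
    · have e2 : ∀ a b x : ZMod n, -(a + x) - -(b + x) = -(a - b) := fun _ _ _ => by ring
      by_cases h1 : a = c <;> by_cases h2 : b = c <;>
        simp only [h1, h2, if_true, if_false, add_sub_add_right_eq_sub, e2, sn_neg, eq_comm (a := c)] <;>
        ring
  · intro P h
    have R : ∀ (e e' b b' y y' : ZMod q) (u u' d d' : ZMod m) (v v' c c' : ZMod n),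
        (u + if e = 0 then 1 else 0) = u' + (if e' = 0 then 1 else 0) →
        v + sn (ZMod n) e = v' + sn (ZMod n) e' →
        (y + if e = 0 then sn (ZMod q) d * sn (ZMod q) c else 0) =
          y' + (if e' = 0 then sn (ZMod q) d' * sn (ZMod q) c' else 0) →
        (P (b, u, v, y) ↔ P (b', u', v', y')) := fun e e' b b' y y' u u' d d' v v' c c' e1 e2 e3 =>
      h (b - e, u - d, v - c, b') (b' - e', u' - d', v' - c', b) _ _ (by
        simp only [sub_sub_cancel, sub_eq_self, e1, e2, e3, add_comm b b'])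
    have R1 : ∀ b u v y y', P (b, u, v, y) ↔ P (b, u, v, y') := fun b u v =>
      step (fun y => P (b, u, v, y)) isUnit_one fun y =>
        R 0 0 _ _ _ _ _ _ 1 0 _ _ 1 0 rfl rfl (by simp [m0, m1, n1])
    have R2 : ∀ b u y v v', P (b, u, v, y) ↔ P (b, u, v', y) := fun b u y =>
      step (fun v => P (b, u, v, y)) (c := 2) (ZMod.isUnit_iff_coprime 2 n |>.2
        (Nat.coprime_two_left.2 ho)) fun v =>
        R 1 (-1) _ _ _ _ _ _ 0 0 _ _ 0 0 (by simp [q2]) (by rw [sn_neg, q1]; ring) (by simp [q2])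
    rintro ⟨b, u, v, y⟩ ⟨b', u', v', y'⟩ hp
    rw [R 0 0 b b' y y u u 0 0 v v 0 0 rfl rfl rfl, R1 b' u v y y', R2 b' u y' v v'] at hp
    refine (step (fun u => P (b', u, v', y')) isUnit_one (fun u => ?_) u u').1 hp
    rw [R 0 1 b' b' y' y' u (u + 1) 0 0 v' (v' - 1) 0 0 (by simp [q2]) (by simp [q0, q1])
      (by simp [q2, m0]), R2]
  · simp [q2]
  · intro e
    have h4 := congrArg (fun t => t.2.2.2) e
    simp only [q2, if_false, add_zero] at h4
    have h5 : IsUnit ((2 : ℕ) : ZMod q) :=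
      (ZMod.isUnit_iff_coprime 2 q).2 (Nat.coprime_two_left.2 hq')
    rw [show ((2 : ℕ) : ZMod q) = 0 by push_cast; linear_combination -h4] at h5
    exact q2 (isUnit_zero_iff.1 h5).symm

end Pool.Agent.P.MP_6d14ae_al.U
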