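import Pool.Agent.P.MP_6d14ae_al.U.Fam

/-! The arithmetic conditions on the size. -/

set_option autoImplicit false

namespace Pool.Agent.P.MP_6d14ae_al.U

theorem len_mul {a b : ℕ} (ha : a ≠ 0) (hb : b ≠ 0) :
    (a * b).primeFactorsList.length = a.primeFactorsList.length + b.primeFactorsList.length := by
  rw [(Nat.perm_primeFactorsList_mul ha hb).length_eq, List.length_append]

theorem suf {n r : ℕ} (hn : 0 < n) (hr : r.Prime) (hrn : ¬r ∣ n) {p e : ℕ} (hp : p.Prime)
    (he : 0 < e) (h1 : p ^ (2 * e) ∣ n) (h2 : r ∣ p ^ e - 1)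
    (h3 : r = 2 → 4 ≤ n.primeFactorsList.length) : Cyc n r := by
  rcases hr.eq_two_or_odd' with rfl | ho
  · obtain ⟨t, rfl⟩ := (pow_dvd_pow p (by omega : 2 ≤ 2 * e)).trans h1
    have h4 := h3 rfl
    have t0 : t ≠ 0 := by
      rintro rfl
      simp at hn
    have lp : ∀ q : ℕ, q.Prime → q.primeFactorsList.length = 1 := fun q hq => by
      simp [Nat.primeFactorsList_prime hq]
    rw [len_mul (pow_ne_zero 2 hp.ne_zero) t0, sq, len_mul hp.ne_zero hp.ne_zero, lp p hp] at h4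
    have t1 : t ≠ 1 := by
      rintro rfl
      simp at h4
    obtain ⟨m, hm, k, rfl⟩ := Nat.exists_prime_and_dvd t1
    have k0 : k ≠ 0 := right_ne_zero_of_mul t0
    rw [len_mul hm.ne_zero k0, lp m hm] at h4
    have k1 : k ≠ 1 := by
      rintro rfl
      simp at h4
    have od : ∀ a, a ∣ p ^ 2 * (m * k) → Odd a := fun a ha =>
      Nat.not_even_iff_odd.1 fun h => hrn (h.two_dvd.trans ha)
    have a1 := od p ⟨p * (m * k), by ring⟩
    have a2 := od m ⟨p ^ 2 * k, by ring⟩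
    have a3 := od k ⟨p ^ 2 * m, by ring⟩
    have := hp.two_le
    have := hm.two_le
    exact conA (by obtain ⟨_, h⟩ := a1; omega) (by obtain ⟨_, h⟩ := a2; omega)
      (by obtain ⟨_, h⟩ := a3; omega) a3 a1
  · classical
    obtain ⟨m, rfl⟩ := h1
    have := Fact.mk hp
    have := Fact.mk hr
    have : NeZero m := ⟨right_ne_zero_of_mul hn.ne'⟩
    let _ := Fintype.ofFinite (GaloisField p e)
    have hc : Fintype.card (GaloisField p e) = p ^ e := by
      rw [← Nat.card_eq_fintype_card, GaloisField.card p e he.ne']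
    obtain ⟨α, hα⟩ := exists_prime_orderOf_dvd_card (G := (GaloisField p e)ˣ) r
      (by rwa [Fintype.card_units, hc])
    have := conB hr ho (α : GaloisField p e)
      (by rw [← hα, ← Units.val_pow_eq_pow_val, pow_orderOf_eq_one, Units.val_one])
      (fun h => hr.one_lt.ne' (by rw [← hα, Units.val_eq_one.1 h, orderOf_one])) m
    rwa [hc, ← pow_mul, mul_comm e] at this

/-- for cube-free sizes, or for the prime two, the two arithmetic conditions agree -/
theorem gap {n r : ℕ} (hrn : ¬r ∣ n) (h : (∀ p : ℕ, p.Prime → ¬p ^ 3 ∣ n) ∨ r = 2)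
    (h1 : ∃ p e : ℕ, p.Prime ∧ 0 < e ∧ p ^ (e + 1) ∣ n ∧ r ∣ p ^ e - 1) :
    ∃ p e : ℕ, p.Prime ∧ 0 < e ∧ p ^ (2 * e) ∣ n ∧ r ∣ p ^ e - 1 := by
  obtain ⟨p, e, hp, he, h2, h3⟩ := h1
  rcases h with h | rfl
  · obtain rfl : e = 1 := by
      by_contra h4
      exact h p hp ((pow_dvd_pow p (by omega)).trans h2)
    exact ⟨p, 1, hp, he, h2, h3⟩
  · refine ⟨p, 1, hp, one_pos, (pow_dvd_pow p (by omega)).trans h2, ?_⟩
    rcases hp.eq_two_or_odd' with rfl | ⟨k, hk⟩
    · exact (hrn ((dvd_pow_self 2 (by omega)).trans h2)).elim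
    · exact ⟨k, by rw [pow_one]; omega⟩

end Pool.Agent.P.MP_6d14ae_al.U
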